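import Pool.Agent.CYE.StmtsB

/-! # Squad CYE, row AFF: the numerators -/

set_option autoImplicit false

open Polynomial IsLocalRing

namespace Pool.Agent.CYE.H83

open Pool.Agent.CYD

theorem dX_mul {L : Type} [Field L] (f g : L[X]) : dX (f * g) = dX f * g + f * dX g := by
  unfold dX
  rw [derivative_mul]
  ring

theorem dX_neg {L : Type} [Field L] (f : L[X]) : dX (-f) = -dX f := by
  unfold dX
  rw [derivative_neg]
  ring

theorem lmul {L : Type} [Field L] {D N M f g : L[X]} (h1 : N * f = D * dX f)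
    (h2 : M * g = D * dX g) : (N + M) * (f * g) = D * dX (f * g) := by
  rw [dX_mul]
  linear_combination g * h1 + f * h2

theorem lpow {L : Type} [Field L] {D N f : L[X]} (h1 : N * f = D * dX f) (k : ℕ) :
    ((k : L[X]) * N) * f ^ k = D * dX (f ^ k) := by
  induction k with
  | zero => simp [dX]
  | succ k ih =>
    rw [pow_succ, dX_mul]
    push_cast
    linear_combination f * ih + f ^ k * h1

theorem lneg {L : Type} [Field L] {D N f : L[X]} (h1 : N * f = D * dX f) :
    N * (-f) = D * dX (-f) := by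
  rw [dX_neg]
  linear_combination -h1

theorem aff (fcm : FcmStmt) : AffStmt := by
  intro p m g h F L _ _
  obtain ⟨f1, f2, f3, f4, f5, f6, f7, f8, f9, f10, f11⟩ := fcm p m g h F L
  have f1' := (fcm p m g h F L).1
  obtain ⟨P, hP⟩ : ∃ P, P = cyclotomic m L := ⟨_, rfl⟩
  obtain ⟨Q, hQ⟩ : ∃ Q, Q = derivative P := ⟨_, rfl⟩
  obtain ⟨R, hR⟩ : ∃ R, R = Q.reverse := ⟨_, rfl⟩
  have hDl : Dl L m = P * Q * R := by unfold Dl; rw [hR, hQ, hP]
  obtain ⟨D, hD⟩ : ∃ D, D = Dl L m := ⟨_, rfl⟩
  rw [← hP, ← hQ] at f1 f2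
  rw [← hR] at f2
  have hm := F.hm
  have hp := F.hp
  have hP0 : P.coeff 0 ≠ 0 := by
    rw [hP, cyclotomic_coeff_zero L (by omega)]
    exact one_ne_zero
  have hQ0 : Q.coeff 0 ≠ 0 := by
    intro h0
    have h1 : (red L g * red L h).coeff 0 = 0 := by
      rw [f1, coeff_neg, mul_coeff_zero, h0, mul_zero, neg_zero]
    rw [mul_coeff_zero] at h1
    rcases mul_eq_zero.1 h1 with h2 | h2
    · exact f8 h2
    · exact f10 h2
  have hQn : Q ≠ 0 := by
    intro h0
    exact hQ0 (by rw [h0, coeff_zero])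
  have hR0 : R.coeff 0 ≠ 0 := by
    rw [hR, coeff_zero_reverse]
    exact leadingCoeff_ne_zero.2 hQn
  have hD0 : D.coeff 0 ≠ 0 := by
    rw [hD, hDl, mul_coeff_zero, mul_coeff_zero]
    exact mul_ne_zero (mul_ne_zero hP0 hQ0) hR0
  have hDn : D ≠ 0 := by
    intro h0
    exact hD0 (by rw [h0, coeff_zero])
  have hDd : D.natDegree ≤ 3 * m.totient := by
    have h1 : P.natDegree ≤ m.totient := by rw [hP, natDegree_cyclotomic]
    have h2 : Q.natDegree ≤ m.totient := by
      rw [hQ]
      exact (natDegree_derivative_le P).trans ((Nat.sub_le _ _).trans h1)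
    have h3 : R.natDegree ≤ m.totient := by
      rw [hR]
      exact (reverse_natDegree_le Q).trans h2
    rw [hD, hDl]
    have h4 := natDegree_mul_le (p := P * Q) (q := R)
    have h5 := natDegree_mul_le (p := P) (q := Q)
    omega
  have dP : P ∣ D := by rw [hD, hDl]; exact (Dvd.intro _ rfl : P ∣ P * Q).mul_right R
  have dQ : Q ∣ D := by rw [hD, hDl]; exact (Dvd.intro_left _ rfl : Q ∣ P * Q).mul_right R
  have dR : R ∣ D := by rw [hD, hDl]; exact Dvd.intro_left _ rfl
  have dgh : P ^ (p - 2) * Q ∣ D ^ (p - 2 + 1) := by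
    rw [pow_succ]
    exact mul_dvd_mul (pow_dvd_pow_of_dvd dP _) dQ
  have dgh' : P ^ (p - 2) * R ∣ D ^ (p - 2 + 1) := by
    rw [pow_succ]
    exact mul_dvd_mul (pow_dvd_pow_of_dvd dP _) dR
  -- the numerators
  have key : ∀ (f : L[X]) (k : ℕ), f ∣ D ^ k → f ≠ 0 ∧ ld D f * f = D * dX f ∧
      (ld D f).natDegree ≤ 3 * m.totient := by
    intro f k hf
    have hf0 : f ≠ 0 := by
      intro h0
      rw [h0] at hf
      exact pow_ne_zero k hDn (zero_dvd_iff.1 hf)
    obtain ⟨N, hN1, hN2⟩ := rad L f D k hDn hf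
    have hld : ld D f = N := by
      unfold ld
      have h1 : D * dX f = N * f := hN2.symm
      rw [h1]
      exact mul_div_cancel_right₀ N hf0
    rw [hld]
    exact ⟨hf0, hN2, hN1.trans hDd⟩
  have kg := key (red L g) _ ((Dvd.intro _ rfl : red L g ∣ red L g * red L h).trans (by
    rw [f1]; exact (neg_dvd.2 dgh)))
  have kh := key (red L h) _ ((Dvd.intro_left _ rfl : red L h ∣ red L g * red L h).trans (by
    rw [f1]; exact (neg_dvd.2 dgh)))
  have kg' := key (red L g.reverse) _
    ((Dvd.intro _ rfl : red L g.reverse ∣ red L g.reverse * red L h.reverse).trans (by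
      rw [f2]; exact (neg_dvd.2 dgh')))
  have kh' := key (red L h.reverse) _
    ((Dvd.intro_left _ rfl : red L h.reverse ∣ red L g.reverse * red L h.reverse).trans (by
      rw [f2]; exact (neg_dvd.2 dgh')))
  have kP := key P 1 (by rw [pow_one]; exact dP)
  have kQ := key Q 1 (by rw [pow_one]; exact dQ)
  have kR := key R 1 (by rw [pow_one]; exact dR)
  have hcast : ((p - 2 : ℕ) : L[X]) = -2 := by
    have h1 : ((p - 2 + 2 : ℕ) : L[X]) = 0 := by
      rw [Nat.sub_add_cancel hp.two_le]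
      exact CharP.cast_eq_zero L[X] p
    push_cast at h1
    linear_combination h1
  have s1 : ld D (red L g) + ld D (red L h) = ld D Q - 2 * ld D P := by
    have h1 := lmul kg.2.1 kh.2.1
    have h2 := lneg (lmul (lpow kP.2.1 (p - 2)) kQ.2.1)
    have h3 : (ld D (red L g) + ld D (red L h)) * (red L g * red L h) =
        (((p - 2 : ℕ) : L[X]) * ld D P + ld D Q) * (red L g * red L h) := by
      rw [h1, f1, h2]
    have h4 := mul_right_cancel₀ (mul_ne_zero kg.1 kh.1) h3
    rw [h4, hcast]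
    ring
  have s2 : ld D (red L g.reverse) + ld D (red L h.reverse) = ld D R - 2 * ld D P := by
    have h1 := lmul kg'.2.1 kh'.2.1
    have h2 := lneg (lmul (lpow kP.2.1 (p - 2)) kR.2.1)
    have h3 : (ld D (red L g.reverse) + ld D (red L h.reverse)) *
        (red L g.reverse * red L h.reverse) =
        (((p - 2 : ℕ) : L[X]) * ld D P + ld D R) * (red L g.reverse * red L h.reverse) := by
      rw [h1, f2, h2]
    have h4 := mul_right_cancel₀ (mul_ne_zero kg'.1 kh'.1) h3
    rw [h4, hcast]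
    ring
  have b2 : ∀ A B : L[X], A.natDegree ≤ 3 * m.totient → B.natDegree ≤ 3 * m.totient →
      (A + B).natDegree ≤ 3 * m.totient := fun A B hA hB => natDegree_add_le_of_degree_le hA hB
  have bn : ∀ A : L[X], A.natDegree ≤ 3 * m.totient → (-A).natDegree ≤ 3 * m.totient := by
    intro A hA
    rw [natDegree_neg]
    exact hA
  rw [← hD]
  refine ⟨hDn, hD0, hDd, ?_, ?_, ?_, ?_, ?_⟩
  · rw [← hP, ← hQ, ← hR]
    rintro f (rfl | rfl | rfl | rfl | hf | hf | hf)
    · exact kg.2
    · exact kh.2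
    · exact kg'.2
    · exact kh'.2
    · rw [hf]; exact kP.2
    · rw [hf]; exact kQ.2
    · rw [hf]; exact kR.2
  · intro e e'
    cases e <;> cases e'
    · show (ld (Dl L m) (red L g.reverse) - ld (Dl L m) (red L g)).natDegree ≤ _
      rw [← hD, sub_eq_add_neg]
      exact b2 _ _ kg'.2.2 (bn _ kg.2.2)
    · show (-(ld (Dl L m) (red L h.reverse) + ld (Dl L m) (red L g) +
        ld (Dl L m) (cyclotomic m L))).natDegree ≤ _
      rw [← hD, ← hP]
      exact bn _ (b2 _ _ (b2 _ _ kh'.2.2 kg.2.2) kP.2.2)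
    · show (Dl L m + ld (Dl L m) (red L g.reverse) + ld (Dl L m) (red L h) +
        ld (Dl L m) (cyclotomic m L)).natDegree ≤ _
      rw [← hD, ← hP]
      exact b2 _ _ (b2 _ _ (b2 _ _ hDd kg'.2.2) kh.2.2) kP.2.2
    · show (Dl L m + ld (Dl L m) (red L h) - ld (Dl L m) (red L h.reverse)).natDegree ≤ _
      rw [← hD, sub_eq_add_neg]
      exact b2 _ _ (b2 _ _ hDd kh.2.2) (bn _ kh'.2.2)
  · show Dl L m + ld (Dl L m) (red L g.reverse) + ld (Dl L m) (red L h) +
        ld (Dl L m) (cyclotomic m L) =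
      ld (Dl L m) (red L g.reverse) - ld (Dl L m) (red L g) +
        (Dl L m + ld (Dl L m) (derivative (cyclotomic m L)) - ld (Dl L m) (cyclotomic m L))
    rw [← hD, ← hP, ← hQ]
    linear_combination s1
  · show -(ld (Dl L m) (red L h.reverse) + ld (Dl L m) (red L g) +
        ld (Dl L m) (cyclotomic m L)) =
      ld (Dl L m) (red L g.reverse) - ld (Dl L m) (red L g) +
        (ld (Dl L m) (cyclotomic m L) - ld (Dl L m) (derivative (cyclotomic m L)).reverse)
    rw [← hD, ← hP, ← hQ, ← hR]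
    linear_combination -s2
  · show Dl L m + ld (Dl L m) (red L h) - ld (Dl L m) (red L h.reverse) =
      ld (Dl L m) (red L g.reverse) - ld (Dl L m) (red L g) +
        (Dl L m + ld (Dl L m) (derivative (cyclotomic m L)) - ld (Dl L m) (cyclotomic m L)) +
        (ld (Dl L m) (cyclotomic m L) - ld (Dl L m) (derivative (cyclotomic m L)).reverse)
    rw [← hD, ← hP, ← hQ, ← hR]
    linear_combination s1 - s2

end Pool.Agent.CYE.H83
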